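import Pool.Agent.W2helper81.BY.Stm

/-!
Project BY (helper81), piece BEL: Belyi's theorem for the line from the two steps.
-/

set_option autoImplicit false

open Polynomial

namespace Pool.Agent.W2helper24.BY

open Pool.Agent.W2helper81.BY

theorem BEL_ok : P_BEL := by
  intro h1 h2 L _ _ F hF
  classical
  obtain ⟨β₁, hd, hr, hc⟩ := h1 ℚ L F hF
  have hd0 : derivative β₁ ≠ 0 := by
    intro h0
    have := natDegree_eq_zero_of_derivative_eq_zero h0
    omega
  let c : L → ℚ := fun z => if h : ∃ c : ℚ, aeval z β₁ = algebraMap ℚ L c then h.choose else 0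
  have hcz : ∀ z : L, (∃ c : ℚ, aeval z β₁ = algebraMap ℚ L c) →
      aeval z β₁ = algebraMap ℚ L (c z) := by
    intro z h
    have e : c z = h.choose := dif_pos h
    rw [e]
    exact h.choose_spec
  obtain ⟨β₂, hd2, hS, hcr⟩ := h2 (((F * derivative β₁).aroots L).toFinset.image c)
  have hne : F * derivative β₁ ≠ 0 := mul_ne_zero hF hd0
  have key : ∀ z : L, aeval z (F * derivative β₁) = 0 →
      (∃ c : ℚ, aeval z β₁ = algebraMap ℚ L c) →
      aeval z (β₂.comp β₁) = 0 ∨ aeval z (β₂.comp β₁) = 1 := by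
    intro z hz h
    have hm : c z ∈ ((F * derivative β₁).aroots L).toFinset.image c :=
      Finset.mem_image.2 ⟨z, Multiset.mem_toFinset.2 (mem_aroots.2 ⟨hne, hz⟩), rfl⟩
    rw [aeval_comp, hcz z h, aeval_algebraMap_apply_eq_algebraMap_eval]
    rcases hS _ hm with h3 | h3
    · left; rw [h3, map_zero]
    · right; rw [h3, map_one]
  refine ⟨β₂.comp β₁, ?_, ?_, ?_⟩
  · rw [natDegree_comp]
    exact Nat.mul_pos hd2 hd
  · intro z hz
    exact key z (by rw [map_mul, hz, zero_mul]) (hr z hz)
  · intro z hz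
    rw [derivative_comp, map_mul, mul_eq_zero] at hz
    rcases hz with hz | hz
    · exact key z (by rw [map_mul, hz, mul_zero]) (hc z hz)
    · rw [aeval_comp] at hz ⊢
      exact hcr L _ hz

end Pool.Agent.W2helper24.BY
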